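import Pool.Agent.Q43.CG.Main

/-! MP_dc78ae_al, Q2: the multivariate cogrowth of the commutator subgroup. -/

open Q43.CG

namespace Pool.Agent.Results.MP_dc78ae_al.CommutatorSubgroup

/-- For every `m ≥ 2`, in particular for `m = 2`, the multivariate cogrowth of the commutator
subgroup of the free group `F_m` agrees with the multivariate growth of `F_m` in every
direction `r` of `M_m`. -/
theorem result (m : ℕ) (hm : 2 ≤ m) (r : Fin m → ℝ) (hr : ∀ i, 0 ≤ r i) (hr1 : ∑ i, r i = 1) :
    psi (commutator (FreeGroup (Fin m))) r = psi (⊤ : Subgroup (FreeGroup (Fin m))) r :=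
  psi_commutator hm r hr hr1

end Pool.Agent.Results.MP_dc78ae_al.CommutatorSubgroup
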